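import Mathlib

/-! The space of lattices over the field of Laurent series and its diagonal orbits. -/

namespace Pool.Agent.MP_c07293_an.H82

/-- The embedding of `F[u]` in the field `F((X))` of Laurent series that sends `u` to `1/X`. -/
noncomputable def emb (F : Type) [Field F] : Polynomial F →+* LaurentSeries F :=
  Polynomial.eval₂RingHom HahnSeries.C (HahnSeries.single (-1 : ℤ) (1 : F))

/-- The subgroup of `GL(n, F((X)))` generated by the centre and `GL(n, F[u])`. -/
noncomputable def Gam (F : Type) [Field F] (n : ℕ) : Subgroup (GL (Fin n) (LaurentSeries F)) :=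
  Subgroup.center (GL (Fin n) (LaurentSeries F)) ⊔ (Matrix.GeneralLinearGroup.map (emb F)).range

/-- The orbit of a point under the group of all invertible diagonal matrices. -/
def orb {F : Type} [Field F] {n : ℕ} (x : GL (Fin n) (LaurentSeries F) ⧸ Gam F n) :
    Set (GL (Fin n) (LaurentSeries F) ⧸ Gam F n) :=
  {y | ∃ a : GL (Fin n) (LaurentSeries F),
    (a : Matrix (Fin n) (Fin n) (LaurentSeries F)).IsDiag ∧ y = a • x}

end Pool.Agent.MP_c07293_an.H82
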