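import Pool.Agent.MP_c07293_an.H82.Val

/-! Reduced bases, the compactness criterion and periodic orbits. -/

namespace Pool.Agent.MP_c07293_an.H82

open Polynomial WithZero Matrix

variable {F : Type} [Field F] {n : ℕ}

theorem exp_sum' {ι : Type*} (s : Finset ι) (d : ι → ℤ) :
    (exp (∑ j ∈ s, d j) : ℤᵐ⁰) = ∏ j ∈ s, exp (d j) := by
  classical
  induction s using Finset.induction_on with
  | empty => simp
  | insert a s ha ih => rw [Finset.sum_insert ha, Finset.prod_insert ha, exp_add, ih]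

theorem det_le (h : Matrix (Fin n) (Fin n) (LaurentSeries F)) (d : Fin n → ℤ)
    (hb : ∀ i j, vv (h i j) ≤ exp (d j)) : vv h.det ≤ exp (∑ j, d j) := by
  rw [Matrix.det_apply']
  refine Valuation.map_sum_le _ fun σ _ => ?_
  rw [map_mul, map_prod, exp_sum']
  have : vv (((Equiv.Perm.sign σ : ℤˣ) : ℤ) : LaurentSeries F) = 1 := by
    rcases Int.units_eq_one_or (Equiv.Perm.sign σ) with h | h <;> simp [h]
  rw [this, one_mul]
  exact Finset.prod_le_prod' fun j _ => hb _ j

theorem vv_unit {p : F[X]} (hp : IsUnit p) : vv (emb F p) = 1 := by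
  obtain ⟨a, ha, rfl⟩ := Polynomial.isUnit_iff.mp hp
  rw [emb_eq, ev_C]
  exact vv_C ha.ne_zero

theorem exists_bound (x : LaurentSeries F) : ∃ d : ℤ, vv x ≤ exp d := by
  rcases eq_or_ne (vv x) 0 with h | h
  · exact ⟨0, by simp [h]⟩
  · exact ⟨_, (exp_log h).ge⟩

theorem reduce (g : Matrix (Fin n) (Fin n) (LaurentSeries F)) (hg : g.det ≠ 0) :
    ∃ (γ : Matrix (Fin n) (Fin n) F[X]) (d : Fin n → ℤ), IsUnit γ.det ∧
      (∀ i j, vv ((g * γ.map (emb F)) i j) ≤ exp (d j)) ∧ exp (∑ j, d j) ≤ vv g.det := by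
  classical
  have hg' : vv g.det ≠ 0 := by simpa using hg
  have hdet : ∀ γ : Matrix (Fin n) (Fin n) F[X], IsUnit γ.det →
      vv (g * γ.map (emb F)).det = vv g.det := by
    intro γ hγ
    rw [det_mul, map_mul, ← RingHom.mapMatrix_apply, ← RingHom.map_det, vv_unit hγ, mul_one]
  obtain ⟨s, ⟨γ, d, hγ, hb, rfl⟩, hmin⟩ := Int.exists_least_of_bdd
    (P := fun s => ∃ (γ : Matrix (Fin n) (Fin n) F[X]) (d : Fin n → ℤ), IsUnit γ.det ∧
      (∀ i j, vv ((g * γ.map (emb F)) i j) ≤ exp (d j)) ∧ ∑ j, d j = s)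
    ⟨log (vv g.det), by
      rintro s ⟨γ, d, hγ, hb, rfl⟩
      have := det_le _ d hb
      rwa [hdet γ hγ, ← exp_log hg', exp_le_exp] at this⟩
    (by
      choose e he using fun p : Fin n × Fin n => exists_bound (g p.1 p.2)
      obtain ⟨B, hB⟩ := (Set.finite_range e).bddAbove
      refine ⟨_, 1, fun _ => B, by simp, fun i j => ?_, rfl⟩
      rw [Matrix.map_one _ (map_zero _) (map_one _), Matrix.mul_one]
      exact (he (i, j)).trans (exp_le_exp.mpr (hB ⟨(i, j), rfl⟩)))
  refine ⟨γ, d, hγ, hb, ?_⟩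
  by_contra hlt
  push Not at hlt
  set h := g * γ.map (emb F) with hh
  have hp : ∀ i j, ∃ p : PowerSeries F, (p : LaurentSeries F) = h i j * uu F (-d j) := by
    intro i j
    refine (LaurentSeries.val_le_one_iff_eq_coe F _).mp ?_
    rw [map_mul, vv_uu, ← exp_zero, ← add_neg_cancel (d j), exp_add]
    exact mul_le_mul' (hb i j) le_rfl
  choose p hp using hp
  have h1 : ((Matrix.of p).det : LaurentSeries F) = h.det * uu F (-∑ j, d j) := by
    have e1 : (HahnSeries.ofPowerSeries ℤ F).mapMatrix (Matrix.of p) =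
        h * diagonal fun j => uu F (-d j) := by
      ext1 i j
      simp [hp]
    have e2 : ∀ s : Finset (Fin n), ∏ j ∈ s, uu F (-d j) = uu F (-∑ j ∈ s, d j) := by
      intro s
      induction s using Finset.induction_on with
      | empty => simp [uu_zero]
      | insert a s ha ih => rw [Finset.sum_insert ha, Finset.prod_insert ha, ih, neg_add, uu_add]
    rw [RingHom.map_det, e1, det_mul, det_diagonal, e2]
  have h2 : PowerSeries.constantCoeff (Matrix.of p).det = 0 := by
    rw [← vv_coe_lt, h1, map_mul, vv_uu, hdet γ hγ]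
    rw [lt_exp_iff] at hlt
    calc _ ≤ exp (∑ j, d j - 1) * exp (-∑ j, d j) := mul_le_mul' hlt le_rfl
      _ = _ := by rw [← exp_add]; congr 1; ring
  rw [RingHom.map_det] at h2
  obtain ⟨c, hc0, hc⟩ := exists_mulVec_eq_zero_iff.mpr h2
  obtain ⟨j0, hj0, hmax⟩ := Finset.exists_max_image (Finset.univ.filter fun j => c j ≠ 0) d (by
    by_contra hne
    refine hc0 (funext fun j => ?_)
    by_contra hj
    exact hne ⟨j, Finset.mem_filter.mpr ⟨Finset.mem_univ _, hj⟩⟩)
  have hj0' := (Finset.mem_filter.mp hj0).2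
  set w : Fin n → F[X] := fun j => C (c j) * X ^ (d j0 - d j).toNat with hw
  have hE : (updateCol (1 : Matrix (Fin n) (Fin n) F[X]) j0 w).det = C (c j0) := by
    rw [← cramer_apply, cramer_one]
    simp [hw]
  have key := hmin _ ⟨γ * updateCol 1 j0 w, Function.update d j0 (d j0 - 1), ?_, ?_, rfl⟩
  · rw [Finset.sum_update_of_mem (Finset.mem_univ _),
      ← Finset.add_sum_erase _ _ (Finset.mem_univ j0), Finset.sdiff_singleton_eq_erase] at key
    omega
  · rw [det_mul, hE]
    exact hγ.mul (isUnit_C.mpr (IsUnit.mk0 _ hj0'))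
  · intro i j
    rw [Matrix.map_mul, ← Matrix.mul_assoc, ← hh, Matrix.mul_apply]
    by_cases hj : j = j0
    · subst hj
      have e1 : ∑ l, h i l * ((updateCol (1 : Matrix (Fin n) (Fin n) F[X]) j w).map (emb F)) l j =
          ((∑ l, p i l * PowerSeries.C (c l) : PowerSeries F) : LaurentSeries F) * uu F (d j) := by
        rw [map_sum, Finset.sum_mul]
        refine Finset.sum_congr rfl fun l _ => ?_
        rw [map_apply, updateCol_self, hw]
        simp only [map_mul, map_pow, emb_eq, ev_C, ev_X, uu_pow, hp, HahnSeries.ofPowerSeries_C]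
        by_cases hl : c l = 0
        · simp [hl]
        · have := hmax l (Finset.mem_filter.mpr ⟨Finset.mem_univ _, hl⟩)
          rw [Int.toNat_of_nonneg (by omega), sub_eq_neg_add, uu_add]
          ring
      have e2 : PowerSeries.constantCoeff (∑ l, p i l * PowerSeries.C (c l)) = 0 := by
        have := congrFun hc i
        simpa [mulVec, dotProduct] using this
      rw [← vv_coe_lt] at e2
      rw [e1, Function.update_self, map_mul, vv_uu, sub_eq_neg_add, exp_add]
      exact mul_le_mul' e2 le_rfl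
    · rw [Function.update_of_ne hj]
      have e1 : ∑ l, h i l * ((updateCol (1 : Matrix (Fin n) (Fin n) F[X]) j0 w).map (emb F)) l j =
          h i j := by
        simp [updateCol_ne hj, one_apply, apply_ite (emb F)]
      rw [e1]
      exact hb i j

/-- a compact set of matrices -/
def CC (F : Type) [Field F] (n : ℕ) (R : ℤ) : Set (GL (Fin n) (LaurentSeries F)) :=
  {h | (∀ i j, vv (h.val i j) ≤ exp R) ∧ ∀ i j, vv (h⁻¹.val i j) ≤ exp R}

theorem compact_CC [Finite F] (R : ℤ) : IsCompact (CC F n R) := by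
  have h1 : IsCompact {M : Matrix (Fin n) (Fin n) (LaurentSeries F) | ∀ i j, vv (M i j) ≤ exp R} := by
    have := isCompact_univ_pi fun _ : Fin n => isCompact_univ_pi fun _ : Fin n =>
      compact_ball (F := F) R
    have e : {M : Matrix (Fin n) (Fin n) (LaurentSeries F) | ∀ i j, vv (M i j) ≤ exp R} =
        Set.univ.pi fun _ : Fin n => Set.univ.pi fun _ : Fin n =>
          {x : LaurentSeries F | vv x ≤ exp R} := by
      ext M
      exact ⟨fun h i _ j _ => h i j, fun h i j => h i trivial j trivial⟩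
    rw [e]
    exact this
  have h2 := Units.isClosedEmbedding_embedProduct.isCompact_preimage
    (h1.prod (h1.image MulOpposite.continuous_op))
  convert h2 using 1
  ext h
  constructor
  · exact fun hh => ⟨hh.1, _, hh.2, rfl⟩
  · rintro ⟨h1, M, hM, e⟩
    have e' : M = h⁻¹.val := MulOpposite.op_injective e
    exact ⟨h1, e' ▸ hM⟩

theorem scalar_mem (c : (LaurentSeries F)ˣ) : GeneralLinearGroup.scalar (Fin n) c ∈ Gam F n := by
  refine Subgroup.mem_sup_left (Subgroup.mem_center_iff.mpr fun g => Units.ext ?_)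
  exact ((Matrix.scalar_commute (c : LaurentSeries F) (fun _ => Commute.all _ _) g.val).eq).symm

theorem into_CC (g : GL (Fin 4) (LaurentSeries F))
    (hmin : ∀ x : Fin 4 → F[X], x ≠ 0 →
      vv g.val.det ≤ (∏ i, vv ((g.val *ᵥ fun j => emb F (x j)) i)) * exp 4) :
    ∃ h ∈ CC F 4 24, (h : GL (Fin 4) (LaurentSeries F) ⧸ Gam F 4) = g := by
  have hg : g.val.det ≠ 0 := g.det_ne_zero
  have hg' : vv g.val.det ≠ 0 := by simpa using hg
  obtain ⟨γ, d, hγ, hb, hs⟩ := reduce g.val hg
  set D := log (vv g.val.det) with hD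
  rw [← exp_log hg', exp_le_exp, ← hD] at hs
  have h1 : ∀ j, D ≤ 4 * d j + 4 := by
    intro j
    have := hmin (fun i => γ i j) fun h0 =>
      hγ.ne_zero (det_eq_zero_of_column_eq_zero j fun i => congrFun h0 i)
    rw [← exp_log hg', ← hD] at this
    rw [← exp_le_exp]
    refine this.trans ?_
    have e : (exp (4 * d j) : ℤᵐ⁰) = ∏ _i : Fin 4, exp (d j) := by
      rw [← exp_sum']; simp
    rw [exp_add, e]
    exact mul_le_mul' (Finset.prod_le_prod' fun i _ => hb i j) le_rfl
  set c : (LaurentSeries F)ˣ := Units.mk0 (uu F (-(D / 4))) (uu_ne _) with hc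
  set h : GL (Fin 4) (LaurentSeries F) := g * (GeneralLinearGroup.map (emb F)
    (GeneralLinearGroup.mk'' γ hγ) * GeneralLinearGroup.scalar (Fin 4) c) with hh
  have hv : h.val = uu F (-(D / 4)) • (g.val * γ.map (emb F)) := by
    rw [hh, ← mul_assoc, Units.val_mul, Units.val_mul, smul_eq_mul_diagonal]
    rfl
  have h2 : ∀ i j, vv (h.val i j) ≤ exp 6 := by
    intro i j
    rw [hv, Matrix.smul_apply, smul_eq_mul, map_mul, vv_uu]
    refine (mul_le_mul' le_rfl (hb i j)).trans ?_
    rw [← exp_add, exp_le_exp]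
    rw [Fin.sum_univ_four] at hs
    have a0 := h1 0
    have a1 := h1 1
    have a2 := h1 2
    have a3 := h1 3
    fin_cases j <;> simp only [Fin.zero_eta, Fin.mk_one, Fin.reduceFinMk, Fin.isValue] <;> omega
  have h3 : 1 ≤ vv h.val.det := by
    rw [hv, det_smul, det_mul, map_mul, map_mul, map_pow, vv_uu, ← RingHom.mapMatrix_apply,
      ← RingHom.map_det, vv_unit hγ, mul_one, ← exp_log hg', ← hD, ← WithZero.exp_nsmul, ← exp_add,
      ← exp_zero, exp_le_exp]
    simp only [Fintype.card_fin, nsmul_eq_mul, Nat.cast_ofNat]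
    omega
  refine ⟨h, ⟨fun i j => (h2 i j).trans (exp_le_exp.mpr (by norm_num)), fun i j => ?_⟩,
    QuotientGroup.mk_mul_of_mem _
      (Subgroup.mul_mem _ (Subgroup.mem_sup_right ⟨_, rfl⟩) (scalar_mem c))⟩
  rw [GeneralLinearGroup.coe_inv, inv_def, Matrix.smul_apply, smul_eq_mul, map_mul,
    Ring.inverse_eq_inv', map_inv₀, adjugate_apply]
  have h4 := det_le (h.val.updateRow j (Pi.single i 1)) (fun _ => 6) fun a b => by
    rw [updateRow_apply]
    split_ifs
    · rw [Pi.single_apply]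
      split_ifs
      · rw [map_one, ← exp_zero, exp_le_exp]; norm_num
      · simp
    · exact h2 a b
  calc _ ≤ 1 * exp (∑ _j : Fin 4, (6 : ℤ)) := mul_le_mul' (inv_le_one_of_one_le₀ h3) h4
    _ = _ := by simp

/-- the diagonal matrix preserves the lattice -/
def Pres (lam g : GL (Fin n) (LaurentSeries F)) : Prop :=
  ∃ N : Matrix (Fin n) (Fin n) F[X], lam.val * g.val = g.val * N.map (emb F)

theorem Pres.mul_gam {lam g x : GL (Fin n) (LaurentSeries F)} (h : Pres lam g)
    (hx : x ∈ Gam F n) : Pres lam (g * x) := by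
  obtain ⟨y, hy, _, ⟨γ, rfl⟩, rfl⟩ := Subgroup.mem_sup_of_normal_left.mp hx
  obtain ⟨N, hN⟩ := h
  refine ⟨γ⁻¹.val * N * γ.val, ?_⟩
  have hy' : ∀ a : GL (Fin n) (LaurentSeries F), a.val * y.val = y.val * a.val := fun a =>
    congrArg Units.val (Subgroup.mem_center_iff.mp hy a)
  have e1 : (GeneralLinearGroup.map (emb F) γ).val = γ.val.map (emb F) := rfl
  have e2 : γ.val.map (emb F) * γ⁻¹.val.map (emb F) = 1 := by
    rw [← Matrix.map_mul, Units.mul_inv, Matrix.map_one _ (map_zero _) (map_one _)]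
  rw [Units.val_mul, Units.val_mul, e1, Matrix.map_mul, Matrix.map_mul, ← Matrix.mul_assoc g.val,
    hy' g]
  calc lam.val * (y.val * g.val * γ.val.map (emb F))
      = (lam.val * y.val) * g.val * γ.val.map (emb F) := by simp only [Matrix.mul_assoc]
    _ = y.val * (lam.val * g.val) * γ.val.map (emb F) := by
        rw [hy' lam]; simp only [Matrix.mul_assoc]
    _ = y.val * g.val * (γ.val.map (emb F) * γ⁻¹.val.map (emb F)) * N.map (emb F) *
        γ.val.map (emb F) := by rw [hN, e2]; simp only [Matrix.mul_assoc, Matrix.mul_one]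
    _ = _ := by simp only [Matrix.mul_assoc]

theorem Pres.of_orb {lam g h : GL (Fin n) (LaurentSeries F)} (hd : lam.val.IsDiag)
    (hp : Pres lam g) (hh : (h : GL (Fin n) (LaurentSeries F) ⧸ Gam F n) ∈ orb (g : _ ⧸ Gam F n)) :
    Pres lam h := by
  obtain ⟨a, ha, e⟩ := hh
  have h1 : Pres lam (a * g) := by
    obtain ⟨N, hN⟩ := hp
    refine ⟨N, ?_⟩
    have : lam.val * a.val = a.val * lam.val := by
      rw [← hd.diagonal_diag, ← ha.diagonal_diag, diagonal_mul_diagonal, diagonal_mul_diagonal]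
      simp only [mul_comm]
    rw [Units.val_mul, ← Matrix.mul_assoc, this, Matrix.mul_assoc, hN, Matrix.mul_assoc]
  have h2 : (a * g)⁻¹ * h ∈ Gam F n := QuotientGroup.eq.mp e.symm
  have := h1.mul_gam h2
  rwa [mul_inv_cancel_left] at this

theorem vv_mul_le {A B : Matrix (Fin n) (Fin n) (LaurentSeries F)} {a b : ℤ}
    (hA : ∀ i j, vv (A i j) ≤ exp a) (hB : ∀ i j, vv (B i j) ≤ exp b) (i j : Fin n) :
    vv ((A * B) i j) ≤ exp (a + b) := by
  rw [Matrix.mul_apply]
  refine Valuation.map_sum_le _ fun l _ => ?_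
  rw [map_mul, exp_add]
  exact mul_le_mul' (hA i l) (hB l j)

theorem orb_compact [Finite F] {lam g : GL (Fin n) (LaurentSeries F)} {R : ℤ} (hd : lam.val.IsDiag)
    (hreg : ∀ i j, i ≠ j → lam.val i i ≠ lam.val j j) (hp : Pres lam g)
    (hΩ : orb (g : _ ⧸ Gam F n) ⊆ QuotientGroup.mk '' CC F n R) :
    IsCompact (orb (g : _ ⧸ Gam F n)) := by
  obtain ⟨B, hB⟩ : ∃ B : ℤ, ∀ i j, vv (lam.val i j) ≤ exp B := by
    choose e he using fun p : Fin n × Fin n => exists_bound (lam.val p.1 p.2)
    obtain ⟨B, hB⟩ := (Set.finite_range e).bddAbove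
    exact ⟨B, fun i j => (he (i, j)).trans (exp_le_exp.mpr (hB ⟨(i, j), rfl⟩))⟩
  set Z : Matrix (Fin n) (Fin n) F[X] → Set (GL (Fin n) (LaurentSeries F)) :=
    fun N => CC F n R ∩ {h | lam.val * h.val = h.val * N.map (emb F)} with hZ
  have hZc : ∀ N, IsCompact (Z N) := fun N => (compact_CC R).inter_right
    (isClosed_eq (continuous_const.matrix_mul Units.continuous_val)
      (Units.continuous_val.matrix_mul continuous_const))
  set S : Set (Matrix (Fin n) (Fin n) F[X]) := {N | (∀ i j, vv (emb F (N i j)) ≤ exp (R + (B + R))) ∧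
    ∃ h ∈ Z N, (h : GL (Fin n) (LaurentSeries F) ⧸ Gam F n) ∈ orb (g : _ ⧸ Gam F n)} with hS
  have hSf : S.Finite := by
    refine (Set.Finite.pi' fun _ : Fin n => Set.Finite.pi' fun _ : Fin n =>
      finite_poly (F := F) (R + (B + R))).subset fun N hN => hN.1
  have e : orb (g : _ ⧸ Gam F n) = ⋃ N ∈ S, QuotientGroup.mk '' Z N := by
    ext y
    simp only [Set.mem_iUnion, exists_prop]
    constructor
    · intro hy
      obtain ⟨h, hh, rfl⟩ := hΩ hy
      obtain ⟨N, hN⟩ := hp.of_orb hd hy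
      refine ⟨N, ⟨fun i j => ?_, h, ⟨hh, hN⟩, hy⟩, h, ⟨hh, hN⟩, rfl⟩
      have e1 : N.map (emb F) = h⁻¹.val * (lam.val * h.val) := by
        rw [hN, ← Matrix.mul_assoc, Units.inv_mul, Matrix.one_mul]
      have := vv_mul_le hh.2 (vv_mul_le hB hh.1) i j
      rwa [← e1] at this
    · rintro ⟨N, ⟨-, h0, ⟨-, hh0⟩, a, ha, ea⟩, h, ⟨-, hh⟩, rfl⟩
      simp only [Set.mem_ofPred_eq] at hh0 hh
      have e1 : lam.val * (h * h0⁻¹).val = (h * h0⁻¹).val * lam.val := by
        have e2 : h0⁻¹.val * lam.val = N.map (emb F) * h0⁻¹.val := by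
          calc h0⁻¹.val * lam.val = h0⁻¹.val * (lam.val * h0.val) * h0⁻¹.val := by
                rw [Matrix.mul_assoc, Matrix.mul_assoc, Units.mul_inv, Matrix.mul_one]
            _ = _ := by rw [hh0, ← Matrix.mul_assoc, Units.inv_mul, Matrix.one_mul]
        rw [Units.val_mul, ← Matrix.mul_assoc, hh, Matrix.mul_assoc, Matrix.mul_assoc, e2]
      have hb : (h * h0⁻¹).val.IsDiag := by
        intro i j hij
        have := congrFun (congrFun e1 i) j
        rw [← hd.diagonal_diag, diagonal_mul, mul_diagonal, diag_apply, diag_apply, mul_comm,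
          ← sub_eq_zero, ← mul_sub] at this
        exact (mul_eq_zero.mp this).resolve_right (sub_ne_zero.mpr (hreg i j hij))
      refine ⟨h * h0⁻¹ * a, ?_, ?_⟩
      · rw [Units.val_mul, ← hb.diagonal_diag, ← ha.diagonal_diag, diagonal_mul_diagonal]
        exact isDiag_diagonal _
      · rw [mul_smul, ← ea, MulAction.Quotient.smul_coe, smul_eq_mul, inv_mul_cancel_right]
  rw [e]
  exact hSf.isCompact_biUnion fun N _ => (hZc N).image QuotientGroup.continuous_mk

end Pool.Agent.MP_c07293_an.H82
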