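import Pool.Agent.MP_c07293_an.H82.Mahler

/-! The family of periodic orbits in one compact set. -/

namespace Pool.Agent.MP_c07293_an.H82

open Polynomial WithZero Matrix

variable {F : Type} [Field F]

theorem split_poly (p : F[X]) : ∃ a b : F[X], ∀ t : LaurentSeries F, t ^ 2 = uu F 1 * t - 1 →
    ev t p = emb F a + t * emb F b := by
  induction p using Polynomial.induction_on with
  | C a => exact ⟨C a, 0, fun t _ => by simp [emb_eq]⟩
  | add p q hp hq =>
    obtain ⟨a, b, h1⟩ := hp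
    obtain ⟨c, d, h2⟩ := hq
    exact ⟨a + c, b + d, fun t ht => by simp only [map_add, h1 t ht, h2 t ht]; ring⟩
  | monomial m a h =>
    obtain ⟨c, d, h⟩ := h
    refine ⟨-d, c + X * d, fun t ht => ?_⟩
    rw [pow_succ, ← mul_assoc, map_mul, h t ht]
    simp only [emb_eq, map_add, map_mul, map_neg, ev_X]
    linear_combination ev (uu F 1) d * ht

theorem clear_poly (a : F[X]) : ∃ j0 : ℕ, ∀ j, j0 ≤ j → ∃ p : F[X], ∀ t : LaurentSeries F,
    t ^ 2 = uu F 1 * t - 1 → ev t p = t ^ j * emb F a := by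
  induction a using Polynomial.induction_on with
  | C a => exact ⟨0, fun j _ => ⟨X ^ j * C a, fun t _ => by
      rw [map_mul, map_pow, ev_X, emb_eq, ev_C, ev_C]⟩⟩
  | add p q hp hq =>
    obtain ⟨a, h1⟩ := hp
    obtain ⟨b, h2⟩ := hq
    refine ⟨max a b, fun j hj => ?_⟩
    obtain ⟨c, h1⟩ := h1 j (le_of_max_le_left hj)
    obtain ⟨d, h2⟩ := h2 j (le_of_max_le_right hj)
    exact ⟨c + d, fun t ht => by simp only [map_add, h1 t ht, h2 t ht]; ring⟩
  | monomial m a h =>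
    obtain ⟨j0, h⟩ := h
    refine ⟨j0 + 1, fun j hj => ?_⟩
    obtain ⟨i, rfl⟩ : ∃ i, j = i + 1 := ⟨j - 1, by omega⟩
    obtain ⟨p, h⟩ := h i (by omega)
    refine ⟨(X ^ 2 + 1) * p, fun t ht => ?_⟩
    rw [pow_succ X m, ← mul_assoc, map_mul, h t ht, map_mul (emb F) _ X]
    simp only [emb_eq, map_add, map_pow, map_one, ev_X]
    linear_combination t ^ i * ev (uu F 1) (C a * X ^ m) * ht

theorem clear_vec (x : Fin 4 → F[X]) : ∃ (j : ℕ) (P Q : F[X]), ∀ t : LaurentSeries F,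
    t ^ 2 = uu F 1 * t - 1 → ev t P = t ^ j * (emb F (x 0) + t * emb F (x 1)) ∧
      ev t Q = t ^ j * (emb F (x 2) + t * emb F (x 3)) := by
  choose j0 h using fun i => clear_poly (x i)
  choose p hp using fun i => h i (∑ l, j0 l)
    (Finset.single_le_sum (fun _ _ => Nat.zero_le _) (Finset.mem_univ i))
  refine ⟨∑ l, j0 l, p 0 + X * p 1, p 2 + X * p 3, fun t ht => ?_⟩
  simp only [map_add, map_mul, ev_X, hp _ t ht]
  constructor <;> ring

/-- the data at the two places -/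
structure Dat (F : Type) [Field F] where
  T : LaurentSeries F
  y : LaurentSeries F
  s1 : ℕ → LaurentSeries F
  s0 : ℕ → LaurentSeries F
  vT : vv T = exp 1
  vy : vv y = exp (-1)
  Ty : T * y = 1
  qT : T ^ 2 = uu F 1 * T - 1
  qy : y ^ 2 = uu F 1 * y - 1
  q1 : ∀ k, s1 k ^ 2 = ev T (Dl F k)
  q0 : ∀ k, s0 k ^ 2 = ev y (Dl F k)

theorem exists_dat (h2 : (2 : F) ≠ 0) : Nonempty (Dat F) := by
  obtain ⟨T, vT, qT⟩ := exists_T h2
  have hT : T ≠ 0 := fun h => by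
    rw [h, map_zero] at vT
    exact exp_ne_zero vT.symm
  have vy : vv T⁻¹ = exp (-1) := by rw [map_inv₀, vT, WithZero.exp_neg]
  choose w hw using fun k : ℕ => exists_sqrt h2 (a := T⁻¹ ^ 2 ^ (k + 1)) (by
    rw [map_pow, vy]
    exact pow_lt_one₀ zero_le (by rw [← exp_zero, exp_lt_exp]; norm_num) (by positivity))
  refine ⟨⟨T, T⁻¹, fun k => T ^ 2 ^ k * w k, w, vT, vy, mul_inv_cancel₀ hT, qT, ?_, fun k => ?_,
    fun k => ?_⟩⟩
  · field_simp
    linear_combination qT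
  · rw [mul_pow, (hw k).1, ← pow_mul, ← pow_succ, mul_add, ← mul_pow, mul_inv_cancel₀ hT]
    simp [Dl]
  · rw [(hw k).1]
    simp [Dl, add_comm]

variable (A : Dat F) (z : F) (k : ℕ)

/-- the four values of the variable -/
noncomputable def Dat.tt : Fin 4 → LaurentSeries F := ![A.T, A.T, A.y, A.y]

/-- the four values of the square root -/
noncomputable def Dat.ss : Fin 4 → LaurentSeries F := ![A.s1 k, -A.s1 k, A.s0 k, -A.s0 k]

theorem Dat.tt_sq (i : Fin 4) : A.tt i ^ 2 = uu F 1 * A.tt i - 1 := by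
  fin_cases i
  exacts [A.qT, A.qT, A.qy, A.qy]

theorem Dat.ss_sq (i : Fin 4) : A.ss k i ^ 2 = ev (A.tt i) (Dl F k) := by
  fin_cases i
  exacts [A.q1 k, (neg_sq _).trans (A.q1 k), A.q0 k, (neg_sq _).trans (A.q0 k)]

/-- the matrix of the lattice -/
noncomputable def Dat.G : Matrix (Fin 4) (Fin 4) (LaurentSeries F) :=
  Matrix.of fun i => ![ev (A.tt i) (DD z k), A.tt i * ev (A.tt i) (DD z k),
    ev (A.tt i) (rr z k) + A.ss k i, A.tt i * (ev (A.tt i) (rr z k) + A.ss k i)]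

theorem Dat.G_mulVec (x : Fin 4 → LaurentSeries F) (i : Fin 4) : (A.G z k *ᵥ x) i =
    (x 0 + A.tt i * x 1) * ev (A.tt i) (DD z k) +
      (x 2 + A.tt i * x 3) * (ev (A.tt i) (rr z k) + A.ss k i) := by
  simp [Dat.G, mulVec, dotProduct, Fin.sum_univ_four]
  ring

theorem Dat.det_G : (A.G z k).det =
    -(2 ^ 2 * (ev A.T (DD z k) * ev A.y (DD z k)) * (A.s1 k * A.s0 k) * (A.T - A.y) ^ 2) := by
  simp [Dat.G, Dat.tt, Dat.ss, det_succ_row_zero, Fin.sum_univ_succ, Fin.succAbove]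
  ring

theorem Dat.g1 : Good (vv.comap (ev A.T)) 1 := good_ev A.vT one_ne_zero

theorem Dat.g0 : Good (vv.comap (ev A.y)) (-1) := good_ev A.vy (by norm_num)

theorem Dat.vTy : vv (A.T - A.y) = exp 1 := by
  rw [Valuation.map_sub_eq_of_lt_left _ (by rw [A.vT, A.vy, exp_lt_exp]; norm_num), A.vT]

theorem Dat.v_det (h2 : (2 : F) ≠ 0) : vv (A.G z k).det ^ 2 =
    vv (ev A.T (Dl F k)) * vv (ev A.y (Dl F k)) *
      (vv (ev A.T (DD z k)) * vv (ev A.y (DD z k))) ^ 2 * exp 4 := by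
  have e4 : (exp 4 : ℤᵐ⁰) = (exp 1 ^ 2) ^ 2 := by
    rw [← WithZero.exp_nsmul, ← WithZero.exp_nsmul]; rfl
  rw [A.det_G, Valuation.map_neg, ← A.q1, ← A.q0, e4]
  simp only [map_mul, map_pow, vv_two h2, A.vTy, one_pow, one_mul, mul_pow]
  rw [mul_comm (vv (A.s1 k) ^ 2 * _)]

theorem Dl_ne (k : ℕ) : Dl F k ≠ 0 := (monic_X_pow_add_C (1 : F) (by positivity)).ne_zero

theorem Dat.det_ne (h2 : (2 : F) ≠ 0) : (A.G z k).det ≠ 0 := by
  intro h
  have := A.v_det z k h2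
  rw [h, map_zero, zero_pow two_ne_zero] at this
  exact mul_ne_zero (mul_ne_zero (mul_ne_zero (A.g1.ne_zero (Dl_ne k)) (A.g0.ne_zero (Dl_ne k)))
    (pow_ne_zero 2 (mul_ne_zero (A.g1.ne_zero (DD_ne z k)) (A.g0.ne_zero (DD_ne z k)))))
    exp_ne_zero this.symm

theorem Dat.T_ne : A.T ≠ 0 := left_ne_zero_of_mul (A.Ty ▸ one_ne_zero)

theorem Dat.y_ne : A.y ≠ 0 := right_ne_zero_of_mul (A.Ty ▸ one_ne_zero)

theorem Dat.pair_zero {a b : F[X]} (h1 : emb F a + A.T * emb F b = 0)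
    (h0 : emb F a + A.y * emb F b = 0) : a = 0 ∧ b = 0 := by
  have inj : Function.Injective (emb F) := ev_inj (vv_uu 1) one_ne_zero
  have hb : emb F b = 0 := by
    have h3 : (A.T - A.y) * emb F b = 0 := by linear_combination h1 - h0
    refine (mul_eq_zero.mp h3).resolve_left fun h => ?_
    have := A.vTy
    rw [h, map_zero] at this
    exact exp_ne_zero this.symm
  rw [hb, mul_zero, add_zero] at h1
  exact ⟨inj (by rw [h1, map_zero]), inj (by rw [hb, map_zero])⟩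

theorem Dat.min_G (h2 : (2 : F) ≠ 0) (hz : ¬ IsSquare z) (x : Fin 4 → F[X]) (hx : x ≠ 0) :
    vv (A.G z k).det ≤ (∏ i, vv ((A.G z k *ᵥ fun j => emb F (x j)) i)) * exp 4 := by
  obtain ⟨j, P, Q, h⟩ := clear_vec x
  obtain ⟨p1, q1⟩ := h A.T A.qT
  obtain ⟨p0, q0⟩ := h A.y A.qy
  have hPQ : P ≠ 0 ∨ Q ≠ 0 := by
    by_contra hh
    push Not at hh
    rw [hh.1, map_zero] at p1 p0
    rw [hh.2, map_zero] at q1 q0
    have a := A.pair_zero ((mul_eq_zero.mp p1.symm).resolve_left (pow_ne_zero _ A.T_ne))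
      ((mul_eq_zero.mp p0.symm).resolve_left (pow_ne_zero _ A.y_ne))
    have b := A.pair_zero ((mul_eq_zero.mp q1.symm).resolve_left (pow_ne_zero _ A.T_ne))
      ((mul_eq_zero.mp q0.symm).resolve_left (pow_ne_zero _ A.y_ne))
    refine hx (funext fun i => ?_)
    fin_cases i
    exacts [a.1, a.2, b.1, b.2]
  have hd := descent h2 hz k _ _ 1 one_pos A.g1 A.g0 P Q hPQ
  simp only [Valuation.comap_apply, mul_one] at hd
  have e : ∏ i, (A.G z k *ᵥ fun j => emb F (x j)) i = ev A.T (Nm z k P Q) * ev A.y (Nm z k P Q) := by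
    have hj : A.T ^ j * A.y ^ j = 1 := by rw [← mul_pow, A.Ty, one_pow]
    rw [Fin.prod_univ_four]
    simp only [A.G_mulVec, Nm, map_sub, map_mul, map_add, map_pow, p1, q1, p0, q0, ← A.q1, ← A.q0]
    simp only [Dat.tt, Dat.ss, cons_val_zero, cons_val_one, cons_val]
    generalize emb F (x 0) + A.T * emb F (x 1) = a1
    generalize emb F (x 2) + A.T * emb F (x 3) = b1
    generalize emb F (x 0) + A.y * emb F (x 1) = a0
    generalize emb F (x 2) + A.y * emb F (x 3) = b0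
    generalize A.T ^ j = α at hj
    generalize A.y ^ j = β at hj
    linear_combination (-(1 + α * β) *
      ((a1 * ev A.T (DD z k) + b1 * ev A.T (rr z k)) ^ 2 - A.s1 k ^ 2 * b1 ^ 2) *
      ((a0 * ev A.y (DD z k) + b0 * ev A.y (rr z k)) ^ 2 - A.s0 k ^ 2 * b0 ^ 2)) * hj
  rw [← map_prod, e, map_mul]
  refine (pow_le_pow_iff_left₀ zero_le zero_le two_ne_zero).mp ?_
  rw [A.v_det z k h2, mul_pow _ (exp 4), sq (exp 4), ← mul_assoc]
  exact mul_le_mul' hd le_rfl

/-- the lattice as an invertible matrix -/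
noncomputable def Dat.g (h2 : (2 : F) ≠ 0) : GL (Fin 4) (LaurentSeries F) :=
  GeneralLinearGroup.mkOfDetNeZero _ (A.det_ne z k h2)

theorem Dat.orb_sub (h2 : (2 : F) ≠ 0) (hz : ¬ IsSquare z) :
    orb (A.g z k h2 : _ ⧸ Gam F 4) ⊆ QuotientGroup.mk '' CC F 4 24 := by
  rintro _ ⟨a, ha, rfl⟩
  refine into_CC (a * A.g z k h2) fun x hx => ?_
  have e : (a * A.g z k h2).val = diagonal a.val.diag * A.G z k := by
    rw [ha.diagonal_diag]; rfl
  rw [e, det_mul, det_diagonal, map_mul, map_prod, ← mulVec_mulVec]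
  simp only [mulVec_diagonal, map_mul]
  rw [Finset.prod_mul_distrib, mul_assoc]
  exact mul_le_mul' le_rfl (A.min_G z k h2 hz x hx)

/-- the entries of the regular diagonal matrix -/
noncomputable def Dat.ll (i : Fin 4) : LaurentSeries F := ev (A.tt i) (DD z k) * A.ss k i

theorem Dat.v_s1 : vv (A.s1 k) ^ 2 = exp ((2 ^ (k + 1) : ℕ) : ℤ) := by
  have := A.g1.binom (m := 2 ^ (k + 1)) (by positivity) (one_ne_zero (α := F))
  rw [one_mul, max_eq_left (by positivity)] at this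
  rw [← map_pow, A.q1]
  exact this

theorem Dat.v_s0 : vv (A.s0 k) = 1 := by
  have := A.g0.binom (m := 2 ^ (k + 1)) (by positivity) (one_ne_zero (α := F))
  rw [max_eq_right (by rw [neg_one_mul, neg_nonpos]; positivity), exp_zero] at this
  refine (pow_eq_one_iff_of_nonneg zero_le two_ne_zero).mp ?_
  rw [← map_pow, A.q0]
  exact this

theorem Dat.v_l1 : 1 < vv (ev A.T (DD z k) * A.s1 k) := by
  obtain ⟨j, -, hj, -⟩ := A.g1.spec (DD_ne z k)
  rw [Valuation.comap_apply] at hj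
  have h1 : 1 < vv (A.s1 k) := by
    refine (one_lt_pow_iff_of_nonneg zero_le two_ne_zero).mp ?_
    rw [A.v_s1, ← exp_zero, exp_lt_exp]
    positivity
  rw [map_mul, hj]
  calc (1 : ℤᵐ⁰) < 1 * vv (A.s1 k) := by rwa [one_mul]
    _ ≤ _ := mul_le_mul' (by rw [← exp_zero, exp_le_exp]; positivity) le_rfl

theorem Dat.v_l0 : vv (ev A.y (DD z k) * A.s0 k) ≤ 1 := by
  obtain ⟨j, -, hj, -⟩ := A.g0.spec (DD_ne z k)
  rw [Valuation.comap_apply] at hj
  rw [map_mul, hj, A.v_s0, mul_one, ← exp_zero, exp_le_exp, neg_one_mul, neg_nonpos]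
  positivity

theorem Dat.s1_ne : A.s1 k ≠ 0 := fun h => by
  have := A.v_s1 k
  rw [h, map_zero, zero_pow two_ne_zero] at this
  exact exp_ne_zero this.symm

theorem Dat.ll_ne (i : Fin 4) : A.ll z k i ≠ 0 := by
  have a1 : ev A.T (DD z k) ≠ 0 := fun h => A.g1.ne_zero (DD_ne z k) (by simp [h])
  have a0 : ev A.y (DD z k) ≠ 0 := fun h => A.g0.ne_zero (DD_ne z k) (by simp [h])
  have b1 := A.s1_ne k
  have b0 : A.s0 k ≠ 0 := fun h => by
    have := A.v_s0 k
    rw [h, map_zero] at this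
    exact zero_ne_one this
  fin_cases i <;> simp [Dat.ll, Dat.tt, Dat.ss, a1, a0, b1, b0]

theorem two_ne (h2 : (2 : F) ≠ 0) : (2 : LaurentSeries F) ≠ 0 := fun h => by
  have := vv_two h2
  rw [h, map_zero] at this
  exact zero_ne_one this

theorem Dat.ll_inj (h2 : (2 : F) ≠ 0) (i j : Fin 4) (hij : i ≠ j) : A.ll z k i ≠ A.ll z k j := by
  have n0 := A.ll_ne z k 0
  have n2 := A.ll_ne z k 2
  have v1 := A.v_l1 z k
  have v0 := A.v_l0 z k
  have e0 : A.ll z k 0 = ev A.T (DD z k) * A.s1 k := rfl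
  have e1 : A.ll z k 1 = -(ev A.T (DD z k) * A.s1 k) := mul_neg _ _
  have e2 : A.ll z k 2 = ev A.y (DD z k) * A.s0 k := rfl
  have e3 : A.ll z k 3 = -(ev A.y (DD z k) * A.s0 k) := mul_neg _ _
  rw [e0] at n0
  rw [e2] at n2
  generalize ev A.T (DD z k) * A.s1 k = a at *
  generalize ev A.y (DD z k) * A.s0 k = b at *
  have c1 : a ≠ -a := fun h => mul_ne_zero (two_ne h2) n0 (by linear_combination h)
  have c2 : b ≠ -b := fun h => mul_ne_zero (two_ne h2) n2 (by linear_combination h)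
  have c3 : a ≠ b := fun h => absurd (h ▸ v1) (not_lt.mpr v0)
  have c4 : a ≠ -b := fun h => absurd (h ▸ v1) (by rw [Valuation.map_neg]; exact not_lt.mpr v0)
  have c5 : -a ≠ b := fun h => c4 (by rw [← h, neg_neg])
  have c6 : -a ≠ -b := fun h => c3 (neg_injective h)
  fin_cases i <;> fin_cases j <;>
    simp only [Fin.zero_eta, Fin.mk_one, Fin.reduceFinMk, Fin.isValue, e0, e1, e2, e3] <;>
    first
      | exact absurd rfl hij
      | assumption
      | (apply Ne.symm; assumption)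

/-- the regular diagonal matrix -/
noncomputable def Dat.lam : GL (Fin 4) (LaurentSeries F) :=
  GeneralLinearGroup.mkOfDetNeZero (diagonal (A.ll z k)) (by
    rw [det_diagonal]; exact Finset.prod_ne_zero_iff.mpr fun i _ => A.ll_ne z k i)

theorem Dat.lam_val : (A.lam z k).val = diagonal (A.ll z k) := rfl

theorem Dat.pres (h2 : (2 : F) ≠ 0) : Pres (A.lam z k) (A.g z k h2) := by
  have key : ∀ P Q : F[X], ∃ x : Fin 4 → F[X], ∀ i, (A.G z k *ᵥ fun j => emb F (x j)) i =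
      ev (A.tt i) P * ev (A.tt i) (DD z k) +
        ev (A.tt i) Q * (ev (A.tt i) (rr z k) + A.ss k i) := by
    intro P Q
    obtain ⟨a, b, h1⟩ := split_poly P
    obtain ⟨c, d, h3⟩ := split_poly Q
    refine ⟨![a, b, c, d], fun i => ?_⟩
    rw [A.G_mulVec, h1 _ (A.tt_sq i), h3 _ (A.tt_sq i)]
    simp
  have col : ∀ j, ∃ x : Fin 4 → F[X], ∀ i, A.ll z k i * A.G z k i j =
      (A.G z k *ᵥ fun l => emb F (x l)) i := by
    intro j
    fin_cases j
    · obtain ⟨x, hx⟩ := key (-(DD z k * rr z k)) (DD z k * DD z k)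
      refine ⟨x, fun i => ?_⟩
      rw [hx]; simp [Dat.G, Dat.ll]; ring
    · obtain ⟨x, hx⟩ := key (-(X * DD z k * rr z k)) (X * DD z k * DD z k)
      refine ⟨x, fun i => ?_⟩
      rw [hx]; simp [Dat.G, Dat.ll]; ring
    · obtain ⟨x, hx⟩ := key (Dl F k - rr z k ^ 2) (DD z k * rr z k)
      refine ⟨x, fun i => ?_⟩
      rw [hx, map_sub, ← A.ss_sq]; simp [Dat.G, Dat.ll]; ring
    · obtain ⟨x, hx⟩ := key (X * (Dl F k - rr z k ^ 2)) (X * DD z k * rr z k)
      refine ⟨x, fun i => ?_⟩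
      rw [hx, map_mul, map_sub, ← A.ss_sq]; simp [Dat.G, Dat.ll]; ring
  choose x hx using col
  refine ⟨Matrix.of fun l j => x j l, ?_⟩
  ext1 i j
  rw [A.lam_val, diagonal_mul]
  exact hx j i

theorem Dat.eq_of_pres (h2 : (2 : F) ≠ 0) {j k : ℕ} (h : Pres (A.lam z j) (A.g z k h2)) :
    j = k := by
  obtain ⟨N, hN⟩ := h
  have h1 : ∀ i, A.ll z j i * ev (A.tt i) (DD z k) =
      (A.G z k *ᵥ fun l => emb F (N l 0)) i := by
    intro i
    have := congrFun (congrFun hN i) 0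
    rw [A.lam_val, diagonal_mul] at this
    exact this
  obtain ⟨m, P, Q, h⟩ := clear_vec fun l => N l 0
  obtain ⟨-, q1⟩ := h A.T A.qT
  have a0 := h1 0
  have a1 := h1 1
  rw [A.G_mulVec] at a0 a1
  simp only [Dat.ll, Dat.tt, Dat.ss, cons_val_zero, cons_val_one] at a0 a1
  have e : ev A.T (X ^ m * DD z j * DD z k) * A.s1 j = ev A.T Q * A.s1 k := by
    apply mul_left_cancel₀ (two_ne h2)
    simp only [map_mul, map_pow, ev_X, q1]
    linear_combination A.T ^ m * (a0 - a1)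
  have e2 : (X ^ m * DD z j * DD z k) ^ 2 * Dl F j = Q ^ 2 * Dl F k := by
    apply ev_inj A.vT one_ne_zero
    rw [map_mul, map_mul _ (Q ^ 2), map_pow, map_pow, ← A.q1, ← A.q1, ← mul_pow, ← mul_pow, e]
  have := sq_deg (Dl_sqf h2 j) (Dl_sqf h2 k)
    (mul_ne_zero (mul_ne_zero (pow_ne_zero _ X_ne_zero) (DD_ne z j)) (DD_ne z k)) e2
  rw [Dl_deg, Dl_deg] at this
  have := Nat.pow_right_injective le_rfl this
  omega

theorem main [Finite F] (hF : ringChar F ≠ 2) :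
    ∃ Ω : Set (GL (Fin 4) (LaurentSeries F) ⧸ Gam F 4), IsCompact Ω ∧
      {O | (∃ x, O = orb x) ∧ IsCompact O ∧ O ⊆ Ω}.Infinite := by
  have h2 : (2 : F) ≠ 0 := Ring.two_ne_zero hF
  obtain ⟨z, hz⟩ := FiniteField.exists_nonsquare hF
  obtain ⟨A⟩ := exists_dat h2
  refine ⟨QuotientGroup.mk '' CC F 4 24, (compact_CC 24).image QuotientGroup.continuous_mk, ?_⟩
  have hd : ∀ k, (A.lam z k).val.IsDiag := fun k => isDiag_diagonal _
  refine Set.infinite_of_injective_forall_mem (f := fun k : ℕ => orb (A.g z k h2 : _ ⧸ Gam F 4))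
    (fun j k e => ?_) fun k => ⟨⟨_, rfl⟩, ?_, A.orb_sub z k h2 hz⟩
  · refine A.eq_of_pres z h2 ((A.pres z j h2).of_orb (hd j) ?_)
    simp only at e
    rw [e]
    exact ⟨1, isDiag_one, (one_smul _ _).symm⟩
  · refine orb_compact (hd k) (fun i j hij => ?_) (A.pres z k h2) (A.orb_sub z k h2 hz)
    rw [A.lam_val, diagonal_apply_eq, diagonal_apply_eq]
    exact A.ll_inj z k h2 i j hij

end Pool.Agent.MP_c07293_an.H82

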