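import Mathlib

/-! The descent inequality for the norm forms. -/

namespace Pool.Agent.MP_c07293_an.H82

open Polynomial WithZero

variable {F : Type} [Field F]

/-- valuations on the polynomial ring given by a place at zero or at infinity -/
structure Good (ν : Valuation F[X] ℤᵐ⁰) (e : ℤ) : Prop where
  c : ∀ a : F, a ≠ 0 → ν (C a) = 1
  x : ν X = exp e
  ne : e ≠ 0

theorem Good.spec {ν : Valuation F[X] ℤᵐ⁰} {e : ℤ} (h : Good ν e) {f : F[X]} (hf : f ≠ 0) :
    ∃ j ∈ f.support, ν f = exp (e * j) ∧ ∀ i ∈ f.support, e * i ≤ e * j := by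
  classical
  obtain ⟨j, hj, hm⟩ := Finset.exists_max_image f.support (fun i : ℕ => e * i)
    (support_nonempty.mpr hf)
  have hv : ∀ i ∈ f.support, ν (C (f.coeff i) * X ^ i) = exp (e * i) := by
    intro i hi
    rw [map_mul, map_pow, h.c _ (mem_support_iff.mp hi), h.x, one_mul, ← exp_nsmul]
    congr 1
    simp [mul_comm]
  refine ⟨j, hj, ?_, hm⟩
  conv_lhs => rw [f.as_sum_support_C_mul_X_pow]
  rw [ν.map_sum_eq_of_lt hj, hv j hj]
  intro i hi
  rw [Finset.mem_sdiff, Finset.mem_singleton] at hi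
  rw [hv i hi.1, hv j hj, exp_lt_exp]
  refine lt_of_le_of_ne (hm i hi.1) fun e' => hi.2 ?_
  exact_mod_cast mul_left_cancel₀ h.ne e'

theorem Good.ne_zero {ν : Valuation F[X] ℤᵐ⁰} {e : ℤ} (h : Good ν e) {f : F[X]} (hf : f ≠ 0) :
    ν f ≠ 0 := by
  obtain ⟨j, -, hj, -⟩ := h.spec hf
  rw [hj]; exact exp_ne_zero

theorem Good.two {ν : Valuation F[X] ℤᵐ⁰} {e : ℤ} (h : Good ν e) (h2 : (2 : F) ≠ 0) :
    ν 2 = 1 := by
  have := h.c 2 h2
  rwa [map_ofNat] at this

theorem Good.sq2 {ν : Valuation F[X] ℤᵐ⁰} {e : ℤ} (h : Good ν e) :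
    Good (ν.comap (expand F 2).toRingHom) (2 * e) where
  c a ha := by simpa using h.c a ha
  x := by
    simp only [Valuation.comap_apply, AlgHom.toRingHom_eq_coe, RingHom.coe_coe, expand_X, map_pow,
      h.x, ← exp_nsmul]
    simp
  ne := mul_ne_zero two_ne_zero h.ne

theorem le_add_of_ne {R : Type*} [CommRing R] (ν : Valuation R ℤᵐ⁰) {a b : R}
    (h : ν a = ν b → ν b = 0) : ν b ≤ ν (a + b) ∧ ν (a + b) = ν (a - b) := by
  by_cases hb : ν a = ν b
  · have h0 := h hb
    have ha : ν a = 0 := hb.trans h0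
    have h1 : ν (a + b) = 0 := le_antisymm ((ν.map_add a b).trans (by simp [ha, h0])) zero_le
    have h2 : ν (a - b) = 0 := le_antisymm ((ν.map_sub a b).trans (by simp [ha, h0])) zero_le
    exact ⟨by rw [h0]; exact zero_le, h1.trans h2.symm⟩
  · have hb' : ν a ≠ ν (-b) := by rwa [ν.map_neg]
    rw [sub_eq_add_neg, ν.map_add_of_distinct_val hb, ν.map_add_of_distinct_val hb', ν.map_neg]
    exact ⟨le_max_right _ _, rfl⟩

theorem Good.one_le {ν μ : Valuation F[X] ℤᵐ⁰} {e : ℤ} (h : Good ν e) (h' : Good μ (-e))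
    {f : F[X]} (hf : f ≠ 0) : 1 ≤ ν f * μ f := by
  obtain ⟨i, hi, e1, m1⟩ := h.spec hf
  obtain ⟨j, hj, e2, -⟩ := h'.spec hf
  rw [e1, e2, ← exp_add, ← exp_zero, exp_le_exp]
  have := m1 j hj
  linarith

/-- the value of `X ^ m + a` -/
theorem Good.binom {ν : Valuation F[X] ℤᵐ⁰} {e : ℤ} (h : Good ν e) {m : ℕ} (hm : m ≠ 0) {a : F}
    (ha : a ≠ 0) : ν (X ^ m + C a) = exp (max (e * m) 0) := by
  have h1 : ν (X ^ m) = exp (e * m) := by
    rw [map_pow, h.x, ← exp_nsmul]; congr 1; simp [mul_comm]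
  have h2 : e * m ≠ 0 := mul_ne_zero h.ne (by exact_mod_cast hm)
  rw [ν.map_add_of_distinct_val, h1, h.c a ha, ← exp_zero]
  · rcases le_total (e * m) 0 with h3 | h3
    · rw [max_eq_right h3, max_eq_right (exp_le_exp.mpr h3)]
    · rw [max_eq_left h3, max_eq_left (exp_le_exp.mpr h3)]
  · rw [h1, h.c a ha, ← exp_zero]
    exact fun e' => h2 (exp_injective e')

/-- the discriminants -/
noncomputable def Dl (F : Type) [Field F] (k : ℕ) : F[X] := X ^ (2 ^ (k + 1)) + C 1

/-- the denominators -/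
noncomputable def DD (z : F) : ℕ → F[X]
  | 0 => 1
  | k + 1 => expand F 2 (DD z k) * (X ^ 2 + C (-z))

/-- the shifts -/
noncomputable def rr (z : F) : ℕ → F[X]
  | 0 => 0
  | k + 1 => expand F 2 (rr z k) + X * expand F 2 (DD z k)

/-- the norm forms -/
noncomputable def Nm (z : F) (k : ℕ) (P Q : F[X]) : F[X] :=
  (P * DD z k + Q * rr z k) ^ 2 - Dl F k * Q ^ 2

theorem Dl_succ (k : ℕ) : Dl F (k + 1) = expand F 2 (Dl F k) := by
  simp only [Dl, map_add, map_pow, expand_X, expand_C, ← pow_mul]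
  congr 2
  ring

theorem Dl_sqf (h2 : (2 : F) ≠ 0) (k : ℕ) : Squarefree (Dl F k) := by
  have h : ((2 ^ (k + 1) : ℕ) : F) ≠ 0 := by push_cast; exact pow_ne_zero _ h2
  have := (separable_X_pow_sub_C (-1 : F) h (by simp)).squarefree
  simpa [Dl] using this

theorem Dl_deg (k : ℕ) : (Dl F k).natDegree = 2 ^ (k + 1) := by
  rw [Dl, natDegree_X_pow_add_C]

theorem sq_deg {a b f h : F[X]} (ha : Squarefree a) (hb : Squarefree b) (hf : f ≠ 0)
    (e : f ^ 2 * a = h ^ 2 * b) : a.natDegree = b.natDegree := by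
  obtain ⟨f', h', c, hc, rfl, rfl⟩ := UniqueFactorizationMonoid.exists_reduced_factors f hf h
  have c0 : c ≠ 0 := left_ne_zero_of_mul hf
  have e' : f' ^ 2 * a = h' ^ 2 * b := by
    apply mul_left_cancel₀ (pow_ne_zero 2 c0)
    linear_combination e
  have hc' : IsCoprime (f' ^ 2) (h' ^ 2) := hc.isCoprime.pow
  have u1 : IsUnit h' := ha _ (by
    rw [← sq]; exact hc'.symm.dvd_of_dvd_mul_left ⟨b, e'⟩)
  have u2 : IsUnit f' := hb _ (by
    rw [← sq]; exact hc'.dvd_of_dvd_mul_left ⟨a, e'.symm⟩)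
  have := congrArg natDegree e'
  rwa [natDegree_mul (pow_ne_zero 2 u2.ne_zero) ha.ne_zero,
    natDegree_mul (pow_ne_zero 2 u1.ne_zero) hb.ne_zero, natDegree_eq_zero_of_isUnit (u1.pow 2),
    natDegree_eq_zero_of_isUnit (u2.pow 2), zero_add, zero_add] at this

theorem even_odd (f : F[X]) : ∃ a b : F[X], f = expand F 2 a + X * expand F 2 b := by
  induction f using Polynomial.induction_on with
  | C a => exact ⟨C a, 0, by simp⟩
  | add p q hp hq =>
    obtain ⟨a, b, rfl⟩ := hp
    obtain ⟨c, d, rfl⟩ := hq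
    exact ⟨a + c, b + d, by simp only [map_add]; ring⟩
  | monomial n a h =>
    obtain ⟨c, d, h⟩ := h
    refine ⟨X * d, c, ?_⟩
    rw [pow_succ, ← mul_assoc, h, map_mul, expand_X]
    ring

theorem Good.par {ν : Valuation F[X] ℤᵐ⁰} {e : ℤ} (h : Good ν e) (a b : F[X]) :
    ν (expand F 2 a + X * expand F 2 b) = ν (expand F 2 a - X * expand F 2 b) := by
  refine (le_add_of_ne ν fun hh => ?_).2
  by_cases hb : b = 0
  · simp [hb]
  by_cases ha : a = 0
  · rw [← hh]; simp [ha]
  obtain ⟨i, -, e1, -⟩ := h.sq2.spec ha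
  obtain ⟨j, -, e2, -⟩ := h.sq2.spec hb
  simp only [Valuation.comap_apply, AlgHom.toRingHom_eq_coe, RingHom.coe_coe] at e1 e2
  rw [map_mul, e1, e2, h.x, ← exp_add] at hh
  have h3 := exp_injective hh
  have h4 : e * (2 * i) = e * (1 + 2 * j) := by linarith
  have h5 := mul_left_cancel₀ h.ne h4
  omega

theorem Good.par2 {ν : Valuation F[X] ℤᵐ⁰} {e : ℤ} (h : Good ν e) (k : ℕ) (x w : F[X]) :
    ν (X * Dl F k * w ^ 2) ≤ ν (x ^ 2 - X * Dl F k * w ^ 2) := by
  have key : ν (x ^ 2) = ν (X * Dl F k * w ^ 2) → ν (X * Dl F k * w ^ 2) = 0 := by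
    intro hh
    by_cases hb : w = 0
    · simp [hb]
    by_cases ha : x = 0
    · rw [← hh]; simp [ha]
    obtain ⟨i, -, e1, -⟩ := h.spec ha
    obtain ⟨j, -, e2, -⟩ := h.spec hb
    rw [map_mul, map_mul, map_pow, map_pow, e1, e2, h.x, Dl,
      h.binom (pow_ne_zero _ two_ne_zero) one_ne_zero, ← exp_nsmul, ← exp_nsmul, ← exp_add,
      ← exp_add] at hh
    have h3 := exp_injective hh
    simp only [nsmul_eq_mul, pow_succ] at h3
    push_cast at h3
    rcases max_cases (e * (2 ^ k * 2)) 0 with ⟨h4, -⟩ | ⟨h4, -⟩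
    · rw [h4] at h3
      have h5 : e * (2 * i) = e * (1 + 2 * (2 ^ k + j)) := by linarith
      have h6 := mul_left_cancel₀ h.ne h5
      omega
    · rw [h4] at h3
      have h5 : e * (2 * i) = e * (1 + 2 * j) := by linarith
      have h6 := mul_left_cancel₀ h.ne h5
      omega
  have := le_add_of_ne ν key
  rw [← this.2]; exact this.1

theorem prop_factor {b0 q0 b1 q1 : F[X]} (h : b0 * q1 = b1 * q0) :
    ∃ b q f0 f1 : F[X], IsCoprime b q ∧ b0 = f0 * b ∧ q0 = f0 * q ∧ b1 = f1 * b ∧ q1 = f1 * q := by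
  have red : ∀ s t : F[X], (s ≠ 0 ∨ t ≠ 0) →
      ∃ b q f : F[X], IsCoprime b q ∧ f ≠ 0 ∧ s = f * b ∧ t = f * q := by
    intro s t hst
    rcases hst with hs | ht
    · obtain ⟨b, q, f, hc, rfl, rfl⟩ := UniqueFactorizationMonoid.exists_reduced_factors s hs t
      exact ⟨b, q, f, hc.isCoprime, left_ne_zero_of_mul hs, rfl, rfl⟩
    · obtain ⟨q, b, f, hc, rfl, rfl⟩ := UniqueFactorizationMonoid.exists_reduced_factors t ht s
      exact ⟨b, q, f, hc.isCoprime.symm, left_ne_zero_of_mul ht, rfl, rfl⟩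
  by_cases h0 : b0 ≠ 0 ∨ q0 ≠ 0
  · obtain ⟨b, q, f, ⟨x, y, hc⟩, hf, rfl, rfl⟩ := red b0 q0 h0
    have h' : b * q1 = b1 * q := by
      apply mul_left_cancel₀ hf
      linear_combination h
    exact ⟨b, q, f, x * b1 + y * q1, ⟨x, y, hc⟩, rfl, rfl,
      by linear_combination (-b1) * hc - y * h', by linear_combination (-q1) * hc + x * h'⟩
  · push Not at h0
    obtain ⟨rfl, rfl⟩ := h0
    by_cases h1 : b1 ≠ 0 ∨ q1 ≠ 0
    · obtain ⟨b, q, f, hc, -, rfl, rfl⟩ := red b1 q1 h1
      exact ⟨b, q, 0, f, hc, by simp, by simp, rfl, rfl⟩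
    · push Not at h1
      obtain ⟨rfl, rfl⟩ := h1
      exact ⟨1, 0, 0, 0, isCoprime_one_left, by simp, by simp, by simp, by simp⟩

theorem DD_ne (z : F) (k : ℕ) : DD z k ≠ 0 := by
  induction k with
  | zero => exact one_ne_zero
  | succ k ih =>
    exact mul_ne_zero ((expand_ne_zero two_pos).mpr ih)
      (monic_X_pow_add_C (-z) two_ne_zero).ne_zero

theorem ac1 {M : Type*} [CommMonoid M] (a b c d g h : M) :
    (a * b) ^ 2 * (c * d) ^ 4 * (g * h) ^ 4 = ((c * g) ^ 2 * a * ((d * h) ^ 2 * b)) ^ 2 := by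
  simp only [mul_pow, ← pow_mul, Nat.reduceMul]; ac_rfl

theorem ac2 {M : Type*} [CommMonoid M] (a b c d g h s t : M) :
    a * b * (c * d) ^ 2 * (g * h * (s ^ 2 * t ^ 2)) =
      a * g * (c * s) ^ 2 * (b * h * (d * t) ^ 2) := by
  simp only [mul_pow]; ac_rfl

/-- the descent inequality -/
theorem descent (h2 : (2 : F) ≠ 0) {z : F} (hz : ¬ IsSquare z) (k : ℕ) :
    ∀ (ν μ : Valuation F[X] ℤᵐ⁰) (e : ℤ), 0 < e → Good ν e → Good μ (-e) → ∀ P Q : F[X],
      (P ≠ 0 ∨ Q ≠ 0) →
      ν (Dl F k) * μ (Dl F k) * (ν (DD z k) * μ (DD z k)) ^ 2 ≤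
        (ν (Nm z k P Q) * μ (Nm z k P Q)) ^ 2 * exp (4 * e) := by
  have hz0 : z ≠ 0 := by rintro rfl; exact hz IsSquare.zero
  induction k with
  | zero =>
    intro ν μ e he hν hμ P Q hPQ
    have hN : Nm z 0 P Q ≠ 0 := by
      intro h0
      have h1 : Q ^ 2 * Dl F 0 = P ^ 2 * 1 := by
        simp only [Nm, DD, rr] at h0
        linear_combination -h0
      by_cases hQ : Q = 0
      · rw [hQ] at h1
        simp at h1
        rcases hPQ with h | h
        · exact h (pow_eq_zero_iff two_ne_zero |>.mp h1.symm)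
        · exact h hQ
      · have := sq_deg (Dl_sqf h2 0) squarefree_one hQ h1
        rw [Dl_deg] at this
        simp at this
    have h1 := hν.one_le hμ hN
    rw [Dl, hν.binom (by norm_num) one_ne_zero, hμ.binom (by norm_num) one_ne_zero,
      max_eq_left (by positivity), max_eq_right (by push_cast; linarith)]
    simp only [DD, map_one, mul_one, one_pow, exp_zero]
    calc exp (e * ((2 ^ (0 + 1) : ℕ) : ℤ)) ≤ 1 * exp (4 * e) := by
          rw [one_mul, exp_le_exp]; push_cast; linarith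
      _ ≤ _ := by gcongr; exact one_le_pow₀ h1
  | succ k ih =>
    intro ν μ e he hν hμ P Q hPQ
    have hν' := hν.sq2
    have hμ' := hμ.sq2
    rw [mul_neg] at hμ'
    have hpi : ν (X ^ 2 + C (-z)) * μ (X ^ 2 + C (-z)) = exp (2 * e) := by
      rw [hν.binom two_ne_zero (neg_ne_zero.mpr hz0), hμ.binom two_ne_zero (neg_ne_zero.mpr hz0),
        max_eq_left (by positivity), max_eq_right (by push_cast; linarith), exp_zero, mul_one]
      congr 1; push_cast; ring
    have hD : ν (DD z (k + 1)) * μ (DD z (k + 1)) =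
        ν (expand F 2 (DD z k)) * μ (expand F 2 (DD z k)) * exp (2 * e) := by
      rw [DD, map_mul, map_mul, ← hpi]; ac_rfl
    have e4 : exp (2 * e) ^ 2 = (exp (4 * e) : ℤᵐ⁰) := by
      rw [← exp_nsmul]; congr 1; simp; ring
    obtain ⟨p0, p1, rfl⟩ := even_odd P
    obtain ⟨q0, q1, rfl⟩ := even_odd Q
    set b0 : F[X] := p0 * (X + C (-z)) + X * q1 with hb0
    set b1 : F[X] := p1 * (X + C (-z)) + q0 with hb1
    by_cases hw : b0 * q1 = b1 * q0
    · obtain ⟨b, q, f0, f1, hc, e1, e2, e3, e5⟩ := prop_factor hw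
      have hbq : b ≠ 0 ∨ q ≠ 0 := by
        by_contra hh
        push Not at hh
        rw [hh.1, hh.2] at hc
        exact not_isCoprime_zero_zero hc
      have ev1 : eval z f0 * eval z b = z * (eval z f1 * eval z q) := by
        have := congrArg (eval z) (e1.symm.trans hb0)
        rw [e5] at this
        simpa using this
      have ev2 : eval z f1 * eval z b = eval z f0 * eval z q := by
        have := congrArg (eval z) (e3.symm.trans hb1)
        rw [e2] at this
        simpa using this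
      have ev3 : eval z f0 ^ 2 = z * eval z f1 ^ 2 := by
        obtain ⟨x, y, hc⟩ := hc
        have h1 := congrArg (eval z) hc
        simp only [eval_add, eval_mul, eval_one] at h1
        linear_combination (-(eval z f0 ^ 2 - z * eval z f1 ^ 2)) * h1 +
          eval z x * eval z f0 * ev1 - eval z x * z * eval z f1 * ev2 -
          eval z y * eval z f0 * ev2 + eval z y * eval z f1 * ev1
      have ev4 : eval z f1 = 0 := by
        by_contra hh
        refine hz ⟨eval z f0 / eval z f1, ?_⟩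
        field_simp
        linear_combination -ev3
      have ev5 : eval z f0 = 0 := by
        rw [ev4] at ev3
        simpa using ev3
      obtain ⟨g0, hg0⟩ : X - C z ∣ f0 := dvd_iff_isRoot.mpr ev5
      obtain ⟨g1, hg1⟩ : X - C z ∣ f1 := dvd_iff_isRoot.mpr ev4
      set g : F[X] := expand F 2 g0 + X * expand F 2 g1 with hg
      have hQ : expand F 2 q0 + X * expand F 2 q1 = (X ^ 2 + C (-z)) * g * expand F 2 q := by
        rw [e2, e5, hg0, hg1, hg]
        simp only [map_mul, map_sub, expand_X, expand_C, map_neg]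
        ring
      have hB : (expand F 2 p0 + X * expand F 2 p1) * (X ^ 2 + C (-z)) +
          (expand F 2 q0 + X * expand F 2 q1) * X = (X ^ 2 + C (-z)) * g * expand F 2 b := by
        have h1 := congrArg (expand F 2) (e1.symm.trans hb0)
        have h3 := congrArg (expand F 2) (e3.symm.trans hb1)
        rw [hg0] at h1
        rw [hg1] at h3
        simp only [map_mul, map_sub, map_add, expand_X, expand_C, map_neg] at h1 h3 ⊢
        rw [hg]
        linear_combination -h1 - X * h3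
      have hg' : g ≠ 0 := by
        intro h0
        rw [h0, mul_zero, zero_mul] at hQ hB
        rw [hQ, zero_mul, add_zero] at hB
        rcases hPQ with h | h
        · exact h ((mul_eq_zero.mp hB).resolve_right (monic_X_pow_add_C (-z) two_ne_zero).ne_zero)
        · exact h hQ
      have hN : Nm z (k + 1) (expand F 2 p0 + X * expand F 2 p1)
          (expand F 2 q0 + X * expand F 2 q1) =
          ((X ^ 2 + C (-z)) * g) ^ 2 * expand F 2 (Nm z k b q) := by
        have h1 : (expand F 2 p0 + X * expand F 2 p1) * DD z (k + 1) +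
            (expand F 2 q0 + X * expand F 2 q1) * rr z (k + 1) =
            (X ^ 2 + C (-z)) * g * expand F 2 (b * DD z k + q * rr z k) := by
          rw [DD, rr, map_add, map_mul, map_mul]
          linear_combination expand F 2 (DD z k) * hB + expand F 2 (rr z k) * hQ
        rw [Nm, h1, hQ, Nm, Dl_succ]
        simp only [map_sub, map_mul, map_pow]
        ring
      have i1 := ih _ _ (2 * e) (by linarith) hν' hμ' b q hbq
      simp only [Valuation.comap_apply, AlgHom.toRingHom_eq_coe, RingHom.coe_coe] at i1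
      have i2 := hν.one_le hμ hg'
      have i3 : exp (4 * (2 * e)) = (exp (2 * e) : ℤᵐ⁰) ^ 4 := by
        rw [← exp_nsmul]; congr 1
      rw [hD, hN, Dl_succ, mul_pow, e4, ← mul_assoc]
      gcongr
      refine i1.trans ?_
      rw [i3, ← hpi]
      simp only [map_mul, map_pow]
      calc _ = (ν (expand F 2 (Nm z k b q)) * μ (expand F 2 (Nm z k b q))) ^ 2 *
              (ν (X ^ 2 + C (-z)) * μ (X ^ 2 + C (-z))) ^ 4 * 1 := by rw [mul_one]
        _ ≤ (ν (expand F 2 (Nm z k b q)) * μ (expand F 2 (Nm z k b q))) ^ 2 *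
              (ν (X ^ 2 + C (-z)) * μ (X ^ 2 + C (-z))) ^ 4 * (ν g * μ g) ^ 4 := by
            gcongr; exact one_le_pow₀ i2
        _ = _ := ac1 _ _ _ _ _ _
    · set a0 : F[X] := b0 * DD z k + q0 * rr z k with ha0
      set a1 : F[X] := b1 * DD z k + q1 * rr z k with ha1
      set w : F[X] := 2 * (b0 * q1 - b1 * q0) with hw'
      set n0 : F[X] := a0 ^ 2 + X * a1 ^ 2 - Dl F k * (q0 ^ 2 + X * q1 ^ 2) with hn0
      set n1 : F[X] := 2 * (a0 * a1 - Dl F k * (q0 * q1)) with hn1
      set x : F[X] := a0 ^ 2 - X * a1 ^ 2 - Dl F k * (q0 ^ 2 - X * q1 ^ 2) with hx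
      have hN : Nm z (k + 1) (expand F 2 p0 + X * expand F 2 p1)
          (expand F 2 q0 + X * expand F 2 q1) = expand F 2 n0 + X * expand F 2 n1 := by
        rw [Nm, DD, rr, Dl_succ, hn0, hn1, ha0, ha1, hb0, hb1]
        simp only [map_sub, map_mul, map_pow, map_add, expand_X, expand_C, map_ofNat]
        ring
      have hid : (expand F 2 n0 + X * expand F 2 n1) * (expand F 2 n0 - X * expand F 2 n1) =
          expand F 2 (x ^ 2 - X * Dl F k * (w * DD z k) ^ 2) := by
        have : x ^ 2 - X * Dl F k * (w * DD z k) ^ 2 = n0 ^ 2 - X * n1 ^ 2 := by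
          rw [hx, hn0, hn1, hw', ha0, ha1]; ring
        rw [this]
        simp only [map_sub, map_mul, map_pow, expand_X]
        ring
      have hw0 : w ≠ 0 := by
        refine mul_ne_zero ?_ (sub_ne_zero.mpr hw)
        have : (C 2 : F[X]) ≠ 0 := C_ne_zero.mpr h2
        rwa [map_ofNat] at this
      have j1 := hν'.par2 k x (w * DD z k)
      have j2 := hμ'.par2 k x (w * DD z k)
      have j3 := hν'.one_le hμ' hw0
      have j4 := hν'.one_le hμ' (X_ne_zero (R := F))
      simp only [Valuation.comap_apply, AlgHom.toRingHom_eq_coe, RingHom.coe_coe] at j1 j2 j3 j4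
      rw [← hid, map_mul ν, ← hν.par, ← sq] at j1
      rw [← hid, map_mul μ, ← hμ.par, ← sq] at j2
      rw [hD, hN, Dl_succ, mul_pow, e4, ← mul_assoc, mul_pow (ν _) (μ _) 2,
        mul_pow (ν _) (μ _) 2]
      gcongr ?_ * _
      refine le_trans ?_ (mul_le_mul' j1 j2)
      simp only [map_mul, map_pow]
      calc _ = 1 * 1 * (ν (expand F 2 (Dl F k)) * μ (expand F 2 (Dl F k)) *
              (ν (expand F 2 (DD z k)) ^ 2 * μ (expand F 2 (DD z k)) ^ 2)) := by
            rw [one_mul, one_mul]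
        _ ≤ (ν (expand F 2 X) * μ (expand F 2 X)) * (ν (expand F 2 w) * μ (expand F 2 w)) ^ 2 *
              (ν (expand F 2 (Dl F k)) * μ (expand F 2 (Dl F k)) *
              (ν (expand F 2 (DD z k)) ^ 2 * μ (expand F 2 (DD z k)) ^ 2)) := by
            gcongr; exact one_le_pow₀ j3
        _ = _ := ac2 _ _ _ _ _ _ _ _

end Pool.Agent.MP_c07293_an.H82
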