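import Pool.Agent.MP_c07293_an.H82.Defs
import Pool.Agent.MP_c07293_an.H82.Poly

/-! Valuations, square roots and compact balls in the field of Laurent series. -/

namespace Pool.Agent.MP_c07293_an.H82

open Polynomial WithZero Filter Topology

variable {F : Type} [Field F]

/-- the valuation -/
noncomputable abbrev vv : Valuation (LaurentSeries F) ℤᵐ⁰ := Valued.v

/-- powers of the variable `u` -/
noncomputable def uu (F : Type) [Field F] (d : ℤ) : LaurentSeries F := HahnSeries.single (-d) (1 : F)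

theorem vv_uu (d : ℤ) : vv (uu F d) = exp d := by
  rw [uu, LaurentSeries.valuation_single_zpow, neg_neg]

theorem uu_add (a b : ℤ) : uu F (a + b) = uu F a * uu F b := by
  rw [uu, uu, uu, HahnSeries.single_mul_single, mul_one, neg_add]

theorem uu_zero : uu F 0 = 1 := by simp [uu]

theorem uu_ne (d : ℤ) : uu F d ≠ 0 := fun h => by
  have := vv_uu (F := F) d
  rw [h, map_zero] at this
  exact exp_ne_zero this.symm

theorem uu_pow (m : ℕ) : uu F 1 ^ m = uu F m := by
  induction m with
  | zero => simp [uu_zero]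
  | succ m ih => rw [pow_succ, ih, ← uu_add]; simp

theorem coe_C (a : F) : ((PowerSeries.C a : PowerSeries F) : LaurentSeries F) = HahnSeries.C a :=
  HahnSeries.ofPowerSeries_C a

theorem vv_coe (p : PowerSeries F) : vv (p : LaurentSeries F) ≤ 1 :=
  (LaurentSeries.val_le_one_iff_eq_coe F _).mpr ⟨p, rfl⟩

theorem vv_C {a : F} (ha : a ≠ 0) : vv (HahnSeries.C a : LaurentSeries F) = 1 := by
  have h1 : ∀ b : F, vv (HahnSeries.C b : LaurentSeries F) ≤ 1 := fun b => coe_C b ▸ vv_coe _
  have h2 : vv (HahnSeries.C a : LaurentSeries F) * vv (HahnSeries.C a⁻¹ : LaurentSeries F) = 1 := by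
    rw [← map_mul, ← map_mul, mul_inv_cancel₀ ha, map_one, map_one]
  refine le_antisymm (h1 a) ?_
  calc (1 : ℤᵐ⁰) = _ := h2.symm
    _ ≤ vv (HahnSeries.C a : LaurentSeries F) * 1 := by gcongr; exact h1 _
    _ = _ := mul_one _

theorem vv_coe_lt (p : PowerSeries F) :
    vv (p : LaurentSeries F) ≤ exp (-1) ↔ PowerSeries.constantCoeff p = 0 := by
  have := LaurentSeries.intValuation_le_iff_coeff_lt_eq_zero F (d := 1) p
  simp only [Nat.cast_one, Nat.lt_one_iff, forall_eq, PowerSeries.coeff_zero_eq_constantCoeff]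
    at this
  exact this

theorem lt_exp_iff {a : ℤᵐ⁰} {d : ℤ} : a < exp d ↔ a ≤ exp (d - 1) := by
  rcases eq_or_ne a 0 with rfl | ha
  · simp [zero_lt_iff]
  · rw [← exp_log ha, exp_lt_exp, exp_le_exp]; omega

/-- evaluation at a Laurent series -/
noncomputable def ev (t : LaurentSeries F) : F[X] →+* LaurentSeries F :=
  eval₂RingHom HahnSeries.C t

@[simp] theorem ev_C (t : LaurentSeries F) (a : F) : ev t (C a) = HahnSeries.C a := by simp [ev]

@[simp] theorem ev_X (t : LaurentSeries F) : ev t X = t := by simp [ev]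

theorem emb_eq : emb F = ev (uu F 1) := rfl

theorem good_ev {t : LaurentSeries F} {e : ℤ} (ht : vv t = exp e) (he : e ≠ 0) :
    Good (vv.comap (ev t)) e where
  c a ha := by simpa using vv_C ha
  x := by simpa using ht
  ne := he

theorem ev_inj {t : LaurentSeries F} {e : ℤ} (ht : vv t = exp e) (he : e ≠ 0) :
    Function.Injective (ev t) := by
  rw [injective_iff_map_eq_zero]
  intro f hf
  by_contra h
  exact (good_ev ht he).ne_zero h (by simp [hf])

theorem vv_two (h2 : (2 : F) ≠ 0) : vv (2 : LaurentSeries F) = 1 := by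
  have := vv_C h2
  rwa [map_ofNat] at this

theorem exists_sqrt (h2 : (2 : F) ≠ 0) {a : LaurentSeries F} (ha : vv a < 1) :
    ∃ w : LaurentSeries F, w ^ 2 = 1 + a ∧ vv (w - 1) < 1 := by
  obtain ⟨f, rfl⟩ := (LaurentSeries.val_le_one_iff_eq_coe F a).mp ha.le
  have hf : PowerSeries.constantCoeff f = 0 :=
    (vv_coe_lt f).mp (by simpa using lt_exp_iff.mp (show vv _ < exp 0 from ha))
  have hm : (X ^ 2 - C (1 + f) : (PowerSeries F)[X]).Monic := monic_X_pow_sub_C _ two_ne_zero
  obtain ⟨w, hw, hw1⟩ := HenselianRing.is_henselian (I := Ideal.span {(PowerSeries.X : PowerSeries F)})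
    _ hm 1 (by
      rw [Ideal.mem_span_singleton, PowerSeries.X_dvd_iff]
      simp [hf]) (by
      refine IsUnit.map _ ?_
      have : IsUnit (PowerSeries.C (2 : F)) := (IsUnit.mk0 _ h2).map _
      rw [map_ofNat] at this
      have e : eval 1 (derivative (X ^ 2 - C (1 + f) : (PowerSeries F)[X])) = 2 := by
        simp; norm_num
      rwa [e])
  refine ⟨w, ?_, ?_⟩
  · have h1 : w ^ 2 = 1 + f := by
      have := hw.eq_zero
      simp only [eval_sub, eval_pow, eval_X, eval_C] at this
      exact sub_eq_zero.mp this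
    have := congrArg (HahnSeries.ofPowerSeries ℤ F) h1
    simpa using this
  · rw [Ideal.mem_span_singleton, PowerSeries.X_dvd_iff, ← vv_coe_lt] at hw1
    rw [map_sub, map_one] at hw1
    exact hw1.trans_lt (by rw [← exp_zero, exp_lt_exp]; norm_num)

theorem exists_T (h2 : (2 : F) ≠ 0) :
    ∃ T : LaurentSeries F, vv T = exp 1 ∧ T ^ 2 = uu F 1 * T - 1 := by
  have h2' : (2 : LaurentSeries F) ≠ 0 := fun h => by
    have := vv_two h2
    rw [h, map_zero] at this
    exact zero_ne_one this
  obtain ⟨w, hw, hw1⟩ := exists_sqrt h2 (a := -(2 ^ 2 * uu F (-2))) (by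
    rw [Valuation.map_neg, map_mul, map_pow, vv_two h2, vv_uu, one_pow, one_mul, ← exp_zero,
      exp_lt_exp]
    norm_num)
  have h3 : vv (1 + w) = 1 := by
    have : 1 + w = 2 + (w - 1) := by ring
    rw [this, Valuation.map_add_eq_of_lt_left _ (by rwa [vv_two h2]), vv_two h2]
  refine ⟨uu F 1 * (1 + w) / 2, ?_, ?_⟩
  · rw [map_div₀, map_mul, h3, vv_two h2, vv_uu]; simp
  · have h4 : uu F 1 * uu F 1 * uu F (-2) = 1 := by
      rw [← uu_add, ← uu_add]; exact uu_zero
    field_simp
    linear_combination (uu F 1) ^ 2 * hw - 4 * h4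

theorem compact_ball [Finite F] (R : ℤ) : IsCompact {x : LaurentSeries F | vv x ≤ exp R} := by
  let _ : TopologicalSpace F := ⊥
  have _ : DiscreteTopology F := ⟨rfl⟩
  have hc : Continuous fun c : ℕ → F =>
      ((PowerSeries.mk c : PowerSeries F) : LaurentSeries F) := by
    rw [continuous_iff_continuousAt]
    intro c s hs
    obtain ⟨γ, hγ⟩ := Valued.mem_nhds.mp hs
    have h0 : MonoidWithZeroHom.ValueGroup₀.embedding γ.1 ≠ 0 := by simp
    obtain ⟨N, hN⟩ : ∃ N : ℕ, exp (-(N : ℤ)) < MonoidWithZeroHom.ValueGroup₀.embedding γ.1 := by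
      refine ⟨(1 - log (MonoidWithZeroHom.ValueGroup₀.embedding γ.1)).toNat, ?_⟩
      conv_rhs => rw [← exp_log h0]
      rw [exp_lt_exp]; omega
    have h1 : ∀ᶠ c' : ℕ → F in 𝓝 c, ∀ n ∈ Finset.range N, c' n = c n := by
      rw [Filter.eventually_all_finset]
      intro n _
      exact ((continuous_apply n).continuousAt (x := c)).eventually
        (show ∀ᶠ y in 𝓝 (c n), y = c n by simp [nhds_discrete])
    rw [Filter.mem_map]
    filter_upwards [h1] with c' hc'
    apply hγ
    rw [Set.mem_ofPred_eq, Valuation.restrict_lt_iff_lt_embedding, ← map_sub]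
    refine lt_of_le_of_lt ?_ hN
    refine (LaurentSeries.intValuation_le_iff_coeff_lt_eq_zero F _).mpr fun n hn => ?_
    simp [hc' n (Finset.mem_range.mpr hn)]
  have h1 := isCompact_range ((continuous_const (y := uu F R)).mul hc)
  convert h1 using 1
  ext x
  constructor
  · intro hx
    obtain ⟨p, hp⟩ := (LaurentSeries.val_le_one_iff_eq_coe F (uu F (-R) * x)).mp (by
      rw [map_mul, vv_uu, ← exp_zero, ← neg_add_cancel R, exp_add]
      exact mul_le_mul' le_rfl hx)
    refine ⟨fun n => PowerSeries.coeff n p, ?_⟩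
    have : (PowerSeries.mk fun n => PowerSeries.coeff n p) = p := by ext n; simp
    simp only [Pi.mul_apply, this, hp]
    rw [← mul_assoc, ← uu_add, add_neg_cancel, uu_zero, one_mul]
  · rintro ⟨c, rfl⟩
    simp only [Set.mem_ofPred_eq, Pi.mul_apply, map_mul, vv_uu]
    calc _ ≤ exp R * 1 := mul_le_mul' le_rfl (vv_coe _)
      _ = _ := mul_one _

theorem finite_poly [Finite F] (R : ℤ) : {p : F[X] | vv (emb F p) ≤ exp R}.Finite := by
  have _ : Finite (degreeLT F (R.toNat + 1)) :=
    Finite.of_equiv _ (degreeLTEquiv F (R.toNat + 1)).toEquiv.symm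
  refine (Set.toFinite (degreeLT F (R.toNat + 1) : Set F[X])).subset fun p hp => ?_
  rw [SetLike.mem_coe, mem_degreeLT]
  by_cases h0 : p = 0
  · simp [h0]
  obtain ⟨j, -, e1, hm⟩ := (good_ev (vv_uu (F := F) 1) one_ne_zero).spec h0
  have h1 := hm _ (natDegree_mem_support_of_nonzero h0)
  rw [Set.mem_ofPred_eq, emb_eq] at hp
  rw [Valuation.comap_apply] at e1
  rw [e1, exp_le_exp] at hp
  rw [degree_eq_natDegree h0]
  exact_mod_cast (by omega : p.natDegree < R.toNat + 1)

end Pool.Agent.MP_c07293_an.H82
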